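import Pool.Agent.Helper25_CON.Stmts

/-! Squad CON: module C_BDD (the norms of the roots of an even lattice are bounded) -/

noncomputable section

namespace Pool.Agent.CON.H36

open Pool.Agent.CON Pool.Agent.H25Cong

lemma nondeg {n : ℕ} {u : V n} (h : ∀ y : V n, B u y = 0) : u = 0 := by
  funext i
  rcases eq_or_ne i 0 with rfl | hi
  · have := h (ep 0)
    rw [B_ep_zero] at this
    simpa using this
  · have := h (ep i)
    rw [B_ep _ hi] at this
    simpa using this

/-- the dual lattice is contained in a multiple of the lattice -/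
lemma dual {n : ℕ} {L : Submodule ℤ (V n)} (hL : EvenLat L) :
    ∃ D : ℕ, 0 < D ∧ ∀ u : V n, (∀ x ∈ L, ∃ k : ℤ, B u x = k) → (D : ℝ) • u ∈ L := by
  obtain ⟨c, hc⟩ := hL.lat
  have hmem : ∀ i, c i ∈ L := fun i => by
    rw [hc]; exact Submodule.subset_span ⟨i, rfl⟩
  choose g hg using fun i j => hL.int (c i) (hmem i) (c j) (hmem j)
  let M : Matrix (Fin (n + 1)) (Fin (n + 1)) ℤ := Matrix.of g
  have hM : M.det ≠ 0 := by
    intro h0
    have h1 : (M.map (Int.cast : ℤ → ℝ)).det = 0 := by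
      have := (Int.castRingHom ℝ).map_det M
      rw [h0] at this
      simpa using this.symm
    obtain ⟨v, hv, hv2⟩ := Matrix.exists_vecMul_eq_zero_iff.mpr h1
    have hu : (∑ i, v i • c i) = 0 := by
      apply nondeg
      have key : ∀ j, B (∑ i, v i • c i) (c j) = 0 := by
        intro j
        have h3 := congrFun hv2 j
        rw [Matrix.vecMul, dotProduct] at h3
        rw [B_sum_left]
        simp only [B_smul_left, hg]
        simpa [M] using h3
      intro y
      have hy := c.sum_repr y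
      rw [← hy, B_sum_right]
      refine Finset.sum_eq_zero fun j _ => ?_
      rw [B_smul_right, key, mul_zero]
    apply hv
    funext i
    have := Fintype.linearIndependent_iff.mp c.linearIndependent v hu i
    simpa using this
  refine ⟨M.det.natAbs, Int.natAbs_pos.mpr hM, fun u hu => ?_⟩
  choose m hm using fun i => hu (c i) (hmem i)
  -- coordinates of u
  let a : Fin (n + 1) → ℝ := fun i => c.repr u i
  have hau : u = ∑ i, a i • c i := (c.sum_repr u).symm
  have h1 : Matrix.vecMul a (M.map (Int.cast : ℤ → ℝ)) = fun j => (m j : ℝ) := by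
    funext j
    rw [Matrix.vecMul, dotProduct, ← hm j]
    nth_rewrite 1 [hau]
    rw [B_sum_left]
    refine Finset.sum_congr rfl fun i _ => ?_
    rw [B_smul_left, hg]
    simp [M]
  have h2 : (M.det : ℝ) • a = Matrix.vecMul (fun j => (m j : ℝ)) (M.adjugate.map (Int.cast : ℤ → ℝ)) := by
    rw [← h1, Matrix.vecMul_vecMul]
    have h3 : M.map (Int.cast : ℤ → ℝ) * M.adjugate.map (Int.cast : ℤ → ℝ)
        = (M.det : ℝ) • (1 : Matrix (Fin (n + 1)) (Fin (n + 1)) ℝ) := by
      ext i j
      have h4 := congrFun (congrFun (Matrix.mul_adjugate M) i) j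
      rw [Matrix.mul_apply] at h4
      rw [Matrix.mul_apply]
      simp only [Matrix.map_apply]
      have h5 := congrArg (Int.cast : ℤ → ℝ) h4
      push_cast at h5
      rw [h5]
      by_cases hij : i = j
      · subst hij; simp [Matrix.smul_apply]
      · simp [Matrix.smul_apply, Matrix.one_apply_ne hij]
    rw [h3, Matrix.vecMul_smul, Matrix.vecMul_one]
  have h5 : (M.det : ℝ) • u ∈ L := by
    rw [hau, Finset.smul_sum]
    refine Submodule.sum_mem _ fun i _ => ?_
    rw [smul_smul]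
    have h6 := congrFun h2 i
    rw [Pi.smul_apply, smul_eq_mul, Matrix.vecMul, dotProduct] at h6
    rw [h6]
    have h7 : (∑ j, (m j : ℝ) * (M.adjugate.map (Int.cast : ℤ → ℝ)) j i)
        = ((∑ j, m j * M.adjugate j i : ℤ) : ℝ) := by
      push_cast
      rfl
    rw [h7, Int.cast_smul_eq_zsmul]
    exact L.smul_mem _ (hmem i)
  rcases Int.natAbs_eq M.det with h | h
  · have h8 : ((M.det.natAbs : ℕ) : ℝ) = (M.det : ℝ) := by
      rw [Nat.cast_natAbs, abs_of_nonneg]
      rw [h]; exact Int.natCast_nonneg _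
    rw [h8]; exact h5
  · have h8 : ((M.det.natAbs : ℕ) : ℝ) = - (M.det : ℝ) := by
      rw [Nat.cast_natAbs, abs_of_nonpos, Int.cast_neg]
      rw [h]; exact neg_nonpos.mpr (Int.natCast_nonneg _)
    rw [h8, neg_smul]; exact L.neg_mem h5

theorem c_bdd : C_BDD := by
  intro n L hL
  obtain ⟨D, hD, hdual⟩ := dual hL
  refine ⟨2 * D, by positivity, fun a ha => ?_⟩
  obtain ⟨haL, hpos, hint, hprim⟩ := ha
  obtain ⟨k, hk⟩ := hL.even a haL
  have hA : B a a = ((2 * k : ℤ) : ℝ) := by rw [hk]; push_cast; ring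
  set A : ℤ := 2 * k with hAdef
  have hApos : 0 < A := by
    have : (0 : ℝ) < (A : ℝ) := by rw [← hA]; exact hpos
    exact_mod_cast this
  have hAr : (A : ℝ) ≠ 0 := by exact_mod_cast hApos.ne'
  -- (2 D / A) a in L
  have h1 : (D : ℝ) • ((2 / (A : ℝ)) • a) ∈ L := by
    apply hdual
    intro x hx
    obtain ⟨j, hj⟩ := hint x hx
    refine ⟨j, ?_⟩
    rw [B_smul_left]
    rw [hA] at hj
    field_simp
    linarith
  -- Bezout
  let g : ℤ := ((Int.gcd (2 * (D : ℤ)) A : ℕ) : ℤ)
  have hg0 : 0 < g := by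
    have : 0 < Int.gcd (2 * (D : ℤ)) A := Int.gcd_pos_of_ne_zero_right _ hApos.ne'
    exact Int.natCast_pos.mpr this
  have hbez := Int.gcd_eq_gcd_ab (2 * (D : ℤ)) A
  have h2 : ((g : ℝ) / A) • a ∈ L := by
    have h3 : ((g : ℝ) / A) • a = ((Int.gcdA (2 * (D : ℤ)) A : ℤ) : ℝ) • ((D : ℝ) • ((2 / (A : ℝ)) • a))
        + ((Int.gcdB (2 * (D : ℤ)) A : ℤ) : ℝ) • a := by
      rw [smul_smul, smul_smul, ← add_smul]
      congr 1
      have h4 : (g : ℝ) = 2 * (D : ℝ) * (Int.gcdA (2 * (D : ℤ)) A : ℤ)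
          + (A : ℝ) * (Int.gcdB (2 * (D : ℤ)) A : ℤ) := by
        have := congrArg (Int.cast : ℤ → ℝ) hbez
        push_cast at this
        exact_mod_cast this
      rw [h4]
      field_simp
    rw [h3, Int.cast_smul_eq_zsmul, Int.cast_smul_eq_zsmul]
    exact L.add_mem (L.smul_mem _ h1) (L.smul_mem _ haL)
  have hgA : g ∣ A := Int.gcd_dvd_right _ _
  have hgD : g ∣ 2 * D := Int.gcd_dvd_left _ _
  obtain ⟨q, hq⟩ := hgA
  have hqpos : 0 < q := by
    by_contra hq0
    have : g * q ≤ 0 := mul_nonpos_of_nonneg_of_nonpos hg0.le (not_lt.mp hq0)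
    omega
  have hq1 : q.toNat = 1 := by
    apply hprim q.toNat (((g : ℝ) / A) • a) h2
    rw [smul_smul]
    have h5 : ((q.toNat : ℕ) : ℝ) = (q : ℝ) := by
      have : ((q.toNat : ℕ) : ℤ) = q := Int.toNat_of_nonneg hqpos.le
      exact_mod_cast this
    have h6 : (q : ℝ) * ((g : ℝ) / A) = 1 := by
      rw [hq]; push_cast
      have hgr : (g : ℝ) ≠ 0 := by exact_mod_cast hg0.ne'
      have hqr : (q : ℝ) ≠ 0 := by exact_mod_cast hqpos.ne'
      field_simp
    rw [h5, h6, one_smul]
  have hq2 : q = 1 := by omega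
  have hAg : A = g := by rw [hq, hq2, mul_one]
  have hle : g ≤ 2 * D := Int.le_of_dvd (by positivity) hgD
  rw [hA, hAg]
  exact_mod_cast hle

end Pool.Agent.CON.H36
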