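import Pool.Agent.Helper25_CON.PDLem

/-! Squad CON: module E_J1 (the norm of a new root is at least rho) -/

noncomputable section

namespace Pool.Agent.CON.H36

open Pool.Agent.CON

theorem e_j1 : E_J1 := by
  intro M _ b C x h hx hN z hz ρ hρ _ hd
  have ht : x + (2 : ℤ) • z ∈ AddSubgroup.closure C :=
    AddSubgroup.add_mem _ hx (AddSubgroup.zsmul_mem _ hz 2)
  have h2 : (2 : ℤ) ∣ b x (x + (2 : ℤ) • z) := by
    rw [h.add_right, h.zsmul_right]
    exact dvd_add (h.two_dvd x) (Dvd.intro _ rfl)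
  have h3 := hd _ ht h2
  have hne : x + (2 : ℤ) • z ≠ 0 := by
    intro h0
    refine hN (-z) (AddSubgroup.neg_mem _ hz) ?_
    rw [smul_neg]
    exact eq_neg_of_add_eq_zero_left h0
  rw [one_mul]
  exact Int.le_of_dvd (h.pos _ hne) h3

end Pool.Agent.CON.H36
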